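import Pool.Agent.helper47.CL.SpecD

/-!
# Row ZE of project CL, part D
-/

set_option autoImplicit false

namespace Pool.Agent.helper41.CL

open Finset

theorem ZE_card (α : Type) [DecidableEq α] (V : Finset α) (k : ℕ) :
    #(ind V ∅ k) = (#V).choose k := by
  unfold ind
  rw [Finset.filter_true_of_mem (by simp), Finset.card_powersetCard]

/-- Row ZE. -/
theorem ZE : ZE_stmt := by
  intro α _ V hV
  obtain ⟨V', -, hV'⟩ := Finset.exists_subset_card_eq (s := V) (n := #V - 2) (by omega)
  refine ⟨V', by omega, ?_⟩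
  intro k
  rw [ZE_card, ZE_card]
  have h : #V = #V' + 1 + 1 := by omega
  rw [h, Nat.choose_succ_succ (#V' + 1) k]
  have h1 : (#V').choose k ≤ (#V' + 1).choose k := Nat.choose_le_succ _ _
  have h2 : (#V' + 1).choose (k + 1) = (#V').choose k + (#V').choose (k + 1) :=
    Nat.choose_succ_succ _ _
  have h3 : (#V' + 1).choose (Nat.succ k) = (#V' + 1).choose (k + 1) := rfl
  omega

end Pool.Agent.helper41.CL
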