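import Pool.Agent.helper47.CL.SpecD

/-!
# Row ZH of project CL, part D
-/

set_option autoImplicit false

namespace Pool.Agent.helper41.CL

open Finset

theorem ZH_mem {α : Type} [DecidableEq α] {V : Finset α} {E : Finset (Finset α)} {k : ℕ}
    {I : Finset α} : I ∈ ind V E k ↔ I ⊆ V ∧ #I = k ∧ ∀ e ∈ E, ¬ e ⊆ I := by
  unfold ind
  rw [Finset.mem_filter, Finset.mem_powersetCard, and_assoc]

/-- Row ZH. -/
theorem ZH : ZH_stmt := by
  intro α _ V E a c y hG hac hne hy hyE
  have hcV : c ∈ V := (hG _ hac).1 (by simp)
  have hyc : y ≠ c := fun h => hyE _ hac (by rw [h]; simp)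
  have hnot : ({y, c} : Finset α) ∉ E.erase {a, c} := fun h =>
    hyE _ (Finset.mem_of_mem_erase h) (by simp)
  have hE' : ∀ e ∈ E, e ≠ {a, c} → e ∈ insert {y, c} (E.erase {a, c}) := fun e he h =>
    Finset.mem_insert_of_mem (Finset.mem_erase.mpr ⟨h, he⟩)
  refine ⟨?_, ?_, ?_⟩
  · intro e he
    rcases Finset.mem_insert.mp he with h | h
    · rw [h]
      refine ⟨?_, Finset.card_pair hyc⟩
      intro z hz
      rw [Finset.mem_insert, Finset.mem_singleton] at hz
      rcases hz with h' | h'
      · rw [h']; exact hy
      · rw [h']; exact hcV
    · exact hG e (Finset.mem_of_mem_erase h)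
  · rw [Finset.card_insert_of_notMem hnot, Finset.card_erase_of_mem hac]
    have : 0 < #E := Finset.card_pos.mpr ⟨_, hac⟩
    omega
  · intro k
    refine Finset.card_le_card_of_injOn
      (fun I => if a ∈ I ∧ c ∈ I then insert y (I.erase a) else I) ?_ ?_
    · intro I hI
      rw [Finset.mem_coe, ZH_mem] at hI
      obtain ⟨hIV, hIk, hIE⟩ := hI
      rw [Finset.mem_coe, ZH_mem]
      by_cases h : a ∈ I ∧ c ∈ I
      · simp only [if_pos h]
        have hyI : y ∉ I := by
          intro hyI
          apply hIE {y, c} (Finset.mem_insert_self _ _)
          intro z hz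
          rw [Finset.mem_insert, Finset.mem_singleton] at hz
          rcases hz with h' | h'
          · rw [h']; exact hyI
          · rw [h']; exact h.2
        refine ⟨?_, ?_, ?_⟩
        · intro z hz
          rcases Finset.mem_insert.mp hz with h' | h'
          · rw [h']; exact hy
          · exact hIV (Finset.mem_of_mem_erase h')
        · rw [Finset.card_insert_of_notMem (fun h' => hyI (Finset.mem_of_mem_erase h')),
            Finset.card_erase_of_mem h.1]
          have : 0 < #I := Finset.card_pos.mpr ⟨_, h.1⟩
          omega
        · intro e he hsub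
          have hsub' : e ⊆ I.erase a := by
            intro z hz
            rcases Finset.mem_insert.mp (hsub hz) with h' | h'
            · exact absurd (h' ▸ hz) (hyE e he)
            · exact h'
          by_cases hea : e = {a, c}
          · have : a ∈ I.erase a := hsub' (by rw [hea]; simp)
            simp at this
          · exact hIE e (hE' e he hea) (hsub'.trans (Finset.erase_subset _ _))
      · simp only [if_neg h]
        refine ⟨hIV, hIk, ?_⟩
        intro e he hsub
        by_cases hea : e = {a, c}
        · apply h
          rw [hea] at hsub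
          exact ⟨hsub (by simp), hsub (by simp)⟩
        · exact hIE e (hE' e he hea) hsub
    · -- injectivity
      have key : ∀ I J : Finset α, I ∈ ind V (insert {y, c} (E.erase {a, c})) k →
          J ∈ ind V (insert {y, c} (E.erase {a, c})) k → (a ∈ I ∧ c ∈ I) →
          insert y (I.erase a) = J → False := by
        intro I J _ hJ h heq
        rw [ZH_mem] at hJ
        apply hJ.2.2 {y, c} (Finset.mem_insert_self _ _)
        rw [← heq]
        intro z hz
        rw [Finset.mem_insert, Finset.mem_singleton] at hz
        rcases hz with h' | h'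
        · rw [h']; exact Finset.mem_insert_self _ _
        · rw [h']
          exact Finset.mem_insert_of_mem (Finset.mem_erase.mpr ⟨hne.symm, h.2⟩)
      have hyN : ∀ I : Finset α, I ∈ ind V (insert {y, c} (E.erase {a, c})) k → c ∈ I → y ∉ I := by
        intro I hI hc hyI
        rw [ZH_mem] at hI
        apply hI.2.2 {y, c} (Finset.mem_insert_self _ _)
        intro z hz
        rw [Finset.mem_insert, Finset.mem_singleton] at hz
        rcases hz with h' | h'
        · rw [h']; exact hyI
        · rw [h']; exact hc
      intro I hI J hJ heq
      rw [Finset.mem_coe] at hI hJ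
      simp only at heq
      by_cases h1 : a ∈ I ∧ c ∈ I <;> by_cases h2 : a ∈ J ∧ c ∈ J
      · rw [if_pos h1, if_pos h2] at heq
        have e1 : I.erase a = J.erase a := by
          have : (insert y (I.erase a)).erase y = (insert y (J.erase a)).erase y := by rw [heq]
          rwa [Finset.erase_insert (fun h => hyN I hI h1.2 (Finset.mem_of_mem_erase h)),
            Finset.erase_insert (fun h => hyN J hJ h2.2 (Finset.mem_of_mem_erase h))] at this
        rw [← Finset.insert_erase h1.1, ← Finset.insert_erase h2.1, e1]
      · rw [if_pos h1, if_neg h2] at heq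
        exact absurd heq (fun h => key I J hI hJ h1 h)
      · rw [if_neg h1, if_pos h2] at heq
        exact absurd heq.symm (fun h => key J I hJ hI h2 h)
      · rw [if_neg h1, if_neg h2] at heq
        exact heq

end Pool.Agent.helper41.CL
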